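import Pool.Agent.Work.MP_286f1f_ag.Univ.Bounds

/-!
# MP_286f1f_ag, Q1: the inequality of Huneke, Mustata, Takagi and Watanabe

`(R, m)` is a Noetherian local ring of dimension `d` and prime characteristic `p`, in any universe,
`J = (x_1, ..., x_d)` is generated by a system of parameters and `𝔞` is `m`-primary.  We prove that
the F-threshold `c = c^J(𝔞)` and the multiplicity `e(J)` exist as limits and that
`e(J) ≤ (c / d)^d e(𝔞)`.

* That `x_1, ..., x_d ∈ m` is a system of parameters of `R` means that the ideal `J` generated by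
  them is `m`-primary and that `d = dim R`; since `m` is maximal, an ideal `I` is `m`-primary if and
  only if its radical is `m`.
* `HasFThreshold p x 𝔞 c` : the limit defining `c^J(𝔞)` is `c`; the minima `ν e` in it exist.
* `HasMultiplicity d I e` : the lengths of the `R`-modules `R / I^n` are finite and the limit
  defining the Hilbert-Samuel multiplicity `e(I)` is `e`.
-/

set_option autoImplicit false

namespace Pool.Agent.Results.MP_286f1f_ag.FThresholdInequality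

open Filter IsLocalRing HMTW HMTWU

universe u

/-- `c` is the F-threshold `c^J(𝔞) = lim_e min {N ≥ 0 : 𝔞^N ⊆ J^[p^e]} / p^e` of the ideal `𝔞` with
respect to `J = (x_1, ..., x_d)`, where `J^[p^e] = (x_1^(p^e), ..., x_d^(p^e))`; `ν e` is the
minimum. -/
def HasFThreshold {R : Type u} [CommRing R] (p : ℕ) {d : ℕ} (x : Fin d → R) (𝔞 : Ideal R)
    (c : ℝ) : Prop :=
  ∃ ν : ℕ → ℕ,
    (∀ e : ℕ, IsLeast {N : ℕ | 𝔞 ^ N ≤ Ideal.span (Set.range fun i => x i ^ p ^ e)} (ν e)) ∧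
    Tendsto (fun e : ℕ => (ν e : ℝ) / (p : ℝ) ^ e) atTop (nhds c)

/-- `e` is the Hilbert-Samuel multiplicity `e(I) = lim_n d! ℓ_R(R / I^n) / n^d` (`d = dim R`); the
length `ℓ n` of the `R`-module `R / I^n` is finite for every `n`. -/
def HasMultiplicity {R : Type u} [CommRing R] (d : ℕ) (I : Ideal R) (e : ℝ) : Prop :=
  ∃ ℓ : ℕ → ℕ, (∀ n : ℕ, Module.length R (R ⧸ I ^ n) = ℓ n) ∧
    Tendsto (fun n : ℕ => (d.factorial : ℝ) * (ℓ n : ℝ) / (n : ℝ) ^ d) atTop (nhds e)

/-! ### Existence of the F-threshold -/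

section Threshold

variable {R : Type u} [CommRing R]

/-- `𝔞^(Q (n + s)) ≤ (v^Q : v ∈ 𝔞^n)` when `𝔞` has `s` generators. -/
lemma pow_le_frob (s : Finset R) (Q : ℕ) (hQ : 0 < Q) (n : ℕ) :
    (Ideal.span (s : Set R)) ^ (Q * (n + s.card)) ≤
      Ideal.span {w | ∃ v ∈ (Ideal.span (s : Set R)) ^ n, w = v ^ Q} := by
  classical
  have h := Submodule.span_pow (R := R) (s : Set R) (Q * (n + s.card))
  change (Ideal.span (s : Set R)) ^ _ = Ideal.span _ at h
  rw [h, Ideal.span_le]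
  intro w hw
  obtain ⟨f, rfl⟩ := Set.mem_pow.mp hw
  rw [List.prod_ofFn]
  have hmaps : ∀ i ∈ (Finset.univ : Finset (Fin (Q * (n + s.card)))), (f i : R) ∈ s :=
    fun i _ => (f i).2
  have h7 : ∏ i, (f i : R) = ∏ x ∈ s, x ^ (Finset.univ.filter fun i => (f i : R) = x).card := by
    rw [← Finset.prod_fiberwise_of_maps_to hmaps]
    refine Finset.prod_congr rfl fun x _ => ?_
    rw [Finset.prod_congr rfl (g := fun _ => x) (fun i hi => (Finset.mem_filter.mp hi).2)]
    rw [Finset.prod_const]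
  have h8 : ∑ x ∈ s, (Finset.univ.filter fun i => (f i : R) = x).card = Q * (n + s.card) := by
    rw [← Finset.card_eq_sum_card_fiberwise hmaps]
    simp
  rw [h7]
  refine prod_mem_span_pow s Q hQ n _ ?_
  rw [h8, mul_add, mul_comm s.card Q]

/-- in characteristic `p` the `Q`-th powers of the elements of `J^[q]` lie in `J^[q Q]` -/
lemma frob_mem (p : ℕ) [Fact p.Prime] [CharP R p] {d : ℕ} (x : Fin d → R) (e f : ℕ) {v : R}
    (hv : v ∈ Ideal.span (Set.range fun i => x i ^ p ^ e)) :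
    v ^ p ^ f ∈ Ideal.span (Set.range fun i => x i ^ p ^ (e + f)) := by
  have h : Ideal.span (Set.range fun i => x i ^ p ^ e) ≤
      (Ideal.span (Set.range fun i => x i ^ p ^ (e + f))).comap (iterateFrobenius R p f) := by
    rw [Ideal.span_le]
    rintro _ ⟨i, rfl⟩
    simp only [SetLike.mem_coe, Ideal.mem_comap, iterateFrobenius_def]
    rw [← pow_mul, ← pow_add]
    exact Ideal.subset_span ⟨i, rfl⟩
  have h2 := h hv
  rwa [Ideal.mem_comap, iterateFrobenius_def] at h2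

lemma nu_succ_le (p : ℕ) [Fact p.Prime] [CharP R p] {d : ℕ} (x : Fin d → R) (s : Finset R)
    (ν : ℕ → ℕ)
    (hν : ∀ e : ℕ, IsLeast {N : ℕ | (Ideal.span (s : Set R)) ^ N ≤
      Ideal.span (Set.range fun i => x i ^ p ^ e)} (ν e)) (e : ℕ) :
    ν (e + 1) ≤ p * (ν e + s.card) := by
  have hp : 0 < p := (Fact.out : p.Prime).pos
  apply (hν (e + 1)).2
  refine (pow_le_frob s p hp (ν e)).trans ?_
  rw [Ideal.span_le]
  rintro w ⟨v, hv, rfl⟩
  have h1 := frob_mem p x e 1 ((hν e).1 hv)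
  rwa [pow_one] at h1

lemma exists_limit (p : ℕ) (hp : 2 ≤ p) (ν : ℕ → ℕ) (s : ℕ)
    (h : ∀ e, ν (e + 1) ≤ p * (ν e + s)) :
    ∃ c : ℝ, Tendsto (fun e : ℕ => (ν e : ℝ) / (p : ℝ) ^ e) atTop (nhds c) := by
  have hp0 : (0 : ℝ) < p := by positivity
  have hp2 : (2 : ℝ) ≤ p := by exact_mod_cast hp
  set b : ℕ → ℝ := fun e => ((ν e : ℝ) + 2 * s) / (p : ℝ) ^ e with hb
  have hanti : Antitone b := by
    refine antitone_nat_of_succ_le fun e => ?_
    simp only [hb]
    rw [div_le_div_iff₀ (by positivity) (by positivity), pow_succ]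
    have h1 : (ν (e + 1) : ℝ) ≤ p * (ν e + s) := by exact_mod_cast h e
    have h2 : (ν (e + 1) : ℝ) + 2 * s ≤ p * (ν e + 2 * s) := by nlinarith [s.cast_nonneg (α := ℝ)]
    calc ((ν (e + 1) : ℝ) + 2 * s) * (p : ℝ) ^ e ≤ (p * (ν e + 2 * s)) * (p : ℝ) ^ e := by
          gcongr
      _ = _ := by ring
  have hbdd : BddBelow (Set.range b) := ⟨0, by rintro _ ⟨e, rfl⟩; positivity⟩
  refine ⟨⨅ e, b e, ?_⟩
  have h3 := tendsto_atTop_ciInf hanti hbdd
  have h4 : Tendsto (fun e : ℕ => 2 * (s : ℝ) / (p : ℝ) ^ e) atTop (nhds 0) :=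
    Tendsto.div_atTop tendsto_const_nhds (tendsto_pow_atTop_atTop_of_one_lt (by linarith))
  have h5 := h3.sub h4
  rw [sub_zero] at h5
  refine h5.congr fun e => ?_
  simp only [hb]
  ring

end Threshold

/-! ### The powers of `J` in `J^[q]` -/

section Pigeon

variable {R : Type u} [CommRing R]

lemma span_pow_eq {d : ℕ} (x : Fin d → R) (n : ℕ) :
    Ideal.span (Set.range x) ^ n
      = Ideal.span (Set.range fun s : Sym (Fin d) n => ((s : Multiset (Fin d)).map x).prod) := by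
  induction n with
  | zero =>
    rw [pow_zero, Ideal.one_eq_top, eq_comm, Ideal.eq_top_iff_one]
    apply Ideal.subset_span
    refine ⟨⟨0, rfl⟩, ?_⟩
    change (Multiset.map x 0).prod = 1
    simp
  | succ n ih =>
    rw [pow_succ', ih, Ideal.span_mul_span']
    apply le_antisymm
    · rw [Ideal.span_le]
      rintro _ ⟨_, ⟨i, rfl⟩, _, ⟨s, rfl⟩, rfl⟩
      apply Ideal.subset_span
      refine ⟨i ::ₛ s, ?_⟩
      simp only [Sym.coe_cons, Multiset.map_cons, Multiset.prod_cons]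
    · rw [Ideal.span_le]
      rintro _ ⟨s, rfl⟩
      apply Ideal.subset_span
      obtain ⟨i, t, rfl⟩ := s.exists_eq_cons_of_succ
      refine ⟨x i, ⟨i, rfl⟩, _, ⟨t, rfl⟩, ?_⟩
      simp only [Sym.coe_cons, Multiset.map_cons, Multiset.prod_cons]

lemma pow_le_bracket {d : ℕ} (x : Fin d → R) (q : ℕ) :
    Ideal.span (Set.range x) ^ (d * (q - 1) + 1) ≤ Ideal.span (Set.range fun i => x i ^ q) := by
  classical
  rw [span_pow_eq, Ideal.span_le]
  rintro _ ⟨s, rfl⟩
  have hcard : Multiset.card (s : Multiset (Fin d)) = d * (q - 1) + 1 := s.2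
  obtain ⟨i, hi⟩ : ∃ i, q ≤ Multiset.count i (s : Multiset (Fin d)) := by
    by_contra hno
    push Not at hno
    have h1 : ∑ i, Multiset.count i (s : Multiset (Fin d)) = d * (q - 1) + 1 :=
      (Multiset.sum_count_eq_card fun a _ => Finset.mem_univ a).trans hcard
    have h2 : ∑ i, Multiset.count i (s : Multiset (Fin d)) ≤ ∑ _i : Fin d, (q - 1) :=
      Finset.sum_le_sum fun i _ => Nat.le_sub_one_of_lt (hno i)
    rw [Finset.sum_const, Finset.card_univ, Fintype.card_fin, smul_eq_mul] at h2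
    omega
  rw [Multiset.le_count_iff_replicate_le] at hi
  obtain ⟨t, ht⟩ := Multiset.le_iff_exists_add.1 hi
  simp only
  rw [ht, Multiset.map_add, Multiset.prod_add, Multiset.map_replicate, Multiset.prod_replicate]
  exact Ideal.mul_mem_right _ _ (Ideal.subset_span ⟨i, rfl⟩)

end Pigeon

/-- **Q1 of MP_286f1f_ag (Huneke, Mustata, Takagi, Watanabe): the inequality holds.**  Let `(R, m)`
be a Noetherian local ring of dimension `d` and prime characteristic `p`, let `J = (x_1, ..., x_d)`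
be generated by a system of parameters and let `𝔞` be an `m`-primary ideal.  Then the F-threshold
`c = c^J(𝔞)` and the multiplicity `eJ = e(J)` exist, and `e(J) ≤ (c / d)^d e(𝔞)`: for the
multiplicity `ea = e(𝔞)`, and also with the lower limit of `d! ℓ_R(R / 𝔞^n) / n^d` in its place.
(Problem.md has `d ≥ 1`; the degenerate case `d = 0`, where `c = 0` and `e(J) = e(𝔞)`, is included
with the convention `(0 / 0)^0 = 1`.) -/
theorem result (R : Type u) [CommRing R] [IsLocalRing R] [IsNoetherianRing R]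
    (p : ℕ) [Fact p.Prime] [CharP R p] (d : ℕ) (hd : ringKrullDim R = ((d : ℕ∞) : WithBot ℕ∞))
    (x : Fin d → R) (hx : ∀ i, x i ∈ maximalIdeal R)
    (hJ : (Ideal.span (Set.range x)).radical = maximalIdeal R)
    (𝔞 : Ideal R) (h𝔞 : 𝔞.radical = maximalIdeal R) :
    ∃ c eJ : ℝ, HasFThreshold p x 𝔞 c ∧ HasMultiplicity d (Ideal.span (Set.range x)) eJ ∧
      (∀ ea : ℝ, HasMultiplicity d 𝔞 ea → eJ ≤ (c / (d : ℝ)) ^ d * ea) ∧
      ∃ ℓ : ℕ → ℕ, (∀ n : ℕ, Module.length R (R ⧸ 𝔞 ^ n) = ℓ n) ∧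
        ∀ ε : ℝ, 0 < ε → ∀ᶠ n : ℕ in atTop,
          eJ ≤ (c / (d : ℝ)) ^ d * ((d.factorial : ℝ) * (ℓ n : ℝ) / (n : ℝ) ^ d) + ε := by
  classical
  have _ := hd
  set J : Ideal R := Ideal.span (Set.range x) with hJdef
  have hp : 0 < p := (Fact.out : p.Prime).pos
  have hp2 : 2 ≤ p := (Fact.out : p.Prime).two_le
  have hfg : (maximalIdeal R).FG := IsNoetherian.noetherian _
  have hmJ : ∃ n, maximalIdeal R ^ n ≤ J := pow_le_of_radical _ hJ
  have hma : ∃ n, maximalIdeal R ^ n ≤ 𝔞 := pow_le_of_radical _ h𝔞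
  have ham : 𝔞 ≤ maximalIdeal R := by rw [← h𝔞]; exact Ideal.le_radical
  have hmxq : ∀ e : ℕ, ∃ n, maximalIdeal R ^ n ≤
      Ideal.span (Set.range (fun i => x i ^ p ^ e)) := by
    intro e
    refine Ideal.exists_pow_le_of_le_radical_of_fg ?_ hfg
    rw [← hJ]
    refine Ideal.radical_le_radical_iff.2 ?_
    rw [hJdef, Ideal.span_le]
    rintro _ ⟨i, rfl⟩
    exact ⟨p ^ e, Ideal.subset_span ⟨i, rfl⟩⟩
  have hpow : ∀ (K : Ideal R), (∃ n, maximalIdeal R ^ n ≤ K) → ∀ j,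
      ∃ n, maximalIdeal R ^ n ≤ K ^ j := by
    rintro K ⟨n, hn⟩ j
    exact ⟨n * j, by rw [pow_mul]; exact Ideal.pow_right_mono hn j⟩
  -- the minima
  set ν : ℕ → ℕ := fun e =>
    sInf {N : ℕ | 𝔞 ^ N ≤ Ideal.span (Set.range fun i => x i ^ p ^ e)} with hν
  have hleast : ∀ e : ℕ,
      IsLeast {N : ℕ | 𝔞 ^ N ≤ Ideal.span (Set.range fun i => x i ^ p ^ e)} (ν e) := by
    intro e
    obtain ⟨n, hn⟩ := hmxq e
    have hne : {N : ℕ | 𝔞 ^ N ≤ Ideal.span (Set.range fun i => x i ^ p ^ e)}.Nonempty :=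
      ⟨n, (Ideal.pow_right_mono ham n).trans hn⟩
    exact ⟨Nat.sInf_mem hne, fun m hm => Nat.sInf_le hm⟩
  obtain ⟨s, hs⟩ : 𝔞.FG := IsNoetherian.noetherian _
  obtain ⟨c, hc⟩ : ∃ c : ℝ, Tendsto (fun e : ℕ => (ν e : ℝ) / (p : ℝ) ^ e) atTop (nhds c) := by
    refine exists_limit p hp2 ν s.card fun e => nu_succ_le p x s ν ?_ e
    intro e
    have h1 : Ideal.span (s : Set R) = 𝔞 := hs
    rw [h1]
    exact hleast e
  have hc0 : 0 ≤ c := ge_of_tendsto' hc (fun e => by positivity)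
  -- the lengths
  have hlen : ∀ (K : Ideal R), (∃ n, maximalIdeal R ^ n ≤ K) → ∀ n,
      Module.length R (R ⧸ K ^ n) = ((Module.length R (R ⧸ K ^ n)).toNat : ℕ) := by
    intro K hK n
    exact (ENat.natCast_toNat (HMTWU.length_ne_top _ (hpow K hK n))).symm
  cases d with
  | zero =>
    have h0 : J = ⊥ := by
      rw [hJdef, Set.range_eq_empty, Ideal.span_empty]
    obtain ⟨N, hN⟩ : ∃ N, 𝔞 ^ N ≤ ⊥ := by
      refine Ideal.exists_pow_le_of_le_radical_of_fg ?_ (IsNoetherian.noetherian _)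
      rw [← h0, hJ]
      exact ham
    have hJn : ∀ n : ℕ, 0 < n → J ^ n = ⊥ := by
      intro n hn
      rw [h0, ← Ideal.zero_eq_bot, zero_pow hn.ne']
    have han : ∀ n : ℕ, N ≤ n → 𝔞 ^ n = ⊥ := fun n hn =>
      le_bot_iff.1 ((Ideal.pow_le_pow_right hn).trans hN)
    refine ⟨c, ((Module.length R (R ⧸ (⊥ : Ideal R))).toNat : ℝ), ⟨ν, hleast, hc⟩,
      ⟨_, hlen J hmJ, ?_⟩, ?_, _, hlen 𝔞 hma, ?_⟩
    · refine tendsto_const_nhds.congr' ?_
      filter_upwards [eventually_gt_atTop 0] with n hn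
      rw [hJn n hn]
      simp
    · rintro ea ⟨ℓ, hℓ, hlim⟩
      rw [pow_zero, one_mul]
      refine ge_of_tendsto hlim ?_
      filter_upwards [eventually_ge_atTop N] with n hn
      have h1 := hℓ n
      rw [han n hn] at h1
      rw [h1]
      simp
    · intro ε hε
      filter_upwards [eventually_ge_atTop N] with n hn
      rw [han n hn, pow_zero, one_mul]
      simp only [Nat.factorial_zero, Nat.cast_one, one_mul, pow_zero, div_one]
      linarith
  | succ m =>
    have hfac : (0 : ℝ) < ((m + 1).factorial : ℝ) := by exact_mod_cast Nat.factorial_pos _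
    have hd0 : (0 : ℝ) < ((m + 1 : ℕ) : ℝ) := by positivity
    -- the multiplicity of `J`
    obtain ⟨ρ, _, hU, hL⟩ := bounds R p m x hx hJ J hJ ((m + 1 : ℕ) : ℝ)
      (fun e => (m + 1) * (p ^ e - 1) + 1)
      (fun e => pow_le_bracket x (p ^ e)) (by
        have h1 : Tendsto (fun e : ℕ => ((m + 1 : ℕ) : ℝ) - (m : ℝ) / (p : ℝ) ^ e) atTop
            (nhds (((m + 1 : ℕ) : ℝ) - 0)) :=
          tendsto_const_nhds.sub (Tendsto.div_atTop tendsto_const_nhds
            (tendsto_pow_atTop_atTop_of_one_lt (by exact_mod_cast hp2)))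
        rw [sub_zero] at h1
        refine h1.congr fun e => ?_
        have h2 : 1 ≤ p ^ e := Nat.one_le_pow _ _ hp
        have h3 : (0 : ℝ) < (p : ℝ) ^ e := by positivity
        rw [eq_div_iff h3.ne', sub_mul, div_mul_cancel₀ _ h3.ne']
        push_cast [h2]
        ring)
    have hkap : ((m + 1).factorial : ℝ) * ((ρ : ℝ) * kapp (m + 1) ((m + 1 : ℕ) : ℝ)) = ρ := by
      unfold kapp
      field_simp
    have hJlim : Tendsto (fun n : ℕ => ((m + 1).factorial : ℝ)
        * ((Module.length R (R ⧸ J ^ n)).toNat : ℝ) / (n : ℝ) ^ (m + 1)) atTop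
        (nhds (ρ : ℝ)) := by
      rw [Metric.tendsto_atTop]
      intro ε hε
      have h1 := (hU (ε / 2) (by positivity)).and (hL (ε / 2) (by positivity))
      obtain ⟨n0, hn0⟩ := eventually_atTop.1 h1
      refine ⟨n0, fun n hn => ?_⟩
      obtain ⟨h2, h3⟩ := hn0 n hn
      rw [hkap] at h3
      rw [Real.dist_eq, abs_lt]
      constructor <;> linarith
    obtain ⟨σ, hσ, hU', hL'⟩ := bounds R p m x hx hJ 𝔞 h𝔞 c ν (fun e => (hleast e).1) hc
    have hρσ : (ρ : ℝ) ≤ σ := by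
      refine le_of_forall_pos_le_add fun ε hε => ?_
      exact le_of_tendsto hJlim (hU' ε hε)
    have hfactor : (σ : ℝ) = (c / ((m + 1 : ℕ) : ℝ)) ^ (m + 1) *
        (((m + 1).factorial : ℝ) * ((σ : ℝ) * kapp (m + 1) c)) := by
      by_cases hσ0 : σ = 0
      · simp [hσ0]
      · have hcpos := hσ hσ0
        unfold kapp
        rw [div_pow]
        field_simp
    have hmain : ∀ ε : ℝ, 0 < ε → ∀ᶠ n : ℕ in atTop,
        (ρ : ℝ) ≤ (c / ((m + 1 : ℕ) : ℝ)) ^ (m + 1) * (((m + 1).factorial : ℝ) *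
          ((Module.length R (R ⧸ 𝔞 ^ n)).toNat : ℝ) / (n : ℝ) ^ (m + 1)) + ε := by
      intro ε hε
      set κ : ℝ := (c / ((m + 1 : ℕ) : ℝ)) ^ (m + 1) with hκ
      have hκ0 : 0 ≤ κ := by positivity
      filter_upwards [hL' (ε / (κ + 1)) (by positivity)] with n hn
      calc (ρ : ℝ) ≤ σ := hρσ
        _ = κ * (((m + 1).factorial : ℝ) * ((σ : ℝ) * kapp (m + 1) c)) := hfactor
        _ ≤ κ * (((m + 1).factorial : ℝ) * ((Module.length R (R ⧸ 𝔞 ^ n)).toNat : ℝ)
            / (n : ℝ) ^ (m + 1) + ε / (κ + 1)) := by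
          gcongr
          linarith
        _ = κ * (((m + 1).factorial : ℝ) * ((Module.length R (R ⧸ 𝔞 ^ n)).toNat : ℝ)
            / (n : ℝ) ^ (m + 1)) + κ / (κ + 1) * ε := by ring
        _ ≤ _ := by
          gcongr
          have h1 : κ / (κ + 1) ≤ 1 := by
            rw [div_le_one (by positivity)]
            linarith
          nlinarith
    refine ⟨c, ρ, ⟨ν, hleast, hc⟩, ⟨_, hlen J hmJ, hJlim⟩, ?_, _, hlen 𝔞 hma, hmain⟩
    rintro ea ⟨ℓ, hℓ, hlim⟩
    refine le_of_forall_pos_le_add fun ε hε => ?_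
    have h1 : Tendsto (fun n : ℕ => (c / ((m + 1 : ℕ) : ℝ)) ^ (m + 1) *
        (((m + 1).factorial : ℝ) * (ℓ n : ℝ) / (n : ℝ) ^ (m + 1)) + ε) atTop
        (nhds ((c / ((m + 1 : ℕ) : ℝ)) ^ (m + 1) * ea + ε)) :=
      (hlim.const_mul _).add_const _
    refine ge_of_tendsto h1 ?_
    filter_upwards [hmain ε hε] with n hn
    have h2 : (Module.length R (R ⧸ 𝔞 ^ n)).toNat = ℓ n := by rw [hℓ n]; simp
    rwa [h2] at hn

end Pool.Agent.Results.MP_286f1f_ag.FThresholdInequality
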